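import Pool.Agent.T2H06.ASM.Adj
import Pool.Agent.U725.ED.Abs

/-!
# Adjoint divisors and the eigen-divisors of a dominant rational self-map

Let `X` be a normal projective variety of dimension `n` with canonical singularities, for instance a
projective manifold, and let `L` be a nef Cartier divisor on `X` such that `r L = a K_X + b M`, where
`r ≥ 1`, `a, b ≥ 0` and `M` is a Cartier divisor (in the generalised abundance conjecture `a = b = 1`
and `M = r L - K_X` is nef; for `b = 0` the divisor `L` is `K_X`). Let `f : X ⇢ X` be a dominant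
rational map, of any topological degree, such that `f^* M ≤ M`, that is, the class of `M - f^* M` on `X`
is pseudo-effective. Let `D 1, ..., D s` be nef Cartier divisors on `X` which are multiplied by `f`:
`f^* D_t ≡ λ_t D_t` with different integers `λ_t ≥ 2` (for instance, `X = A × Z` with an abelian variety
`A`, `f = [m] × g`). We prove that

  `ν (L) + ν (D 1) + ... + ν (D s) ≤ n`,

and that in the case of equality all dynamical degrees of `f` are determined by the numerical
dimensions: `δ_p (f)` is the product of the `p` largest of the numbers `λ_t`, each taken `ν (D t)`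
times, and of `ν (L)` ones; in particular `deg f = ∏ λ_t ^ ν (D t)`. So the inequality is strict if
`deg f` is different from this product, for instance if `f` is birational and some `D t` is not
numerically trivial. Hence `κ (L) = ν (L)` if `κ (L) ≥ n - ∑ ν (D t)`, or if `deg f ≠ ∏ λ_t ^ ν (D t)`
and `κ (L) ≥ n - 1 - ∑ ν (D t)`. If `∑ ν (D t) = n`, for instance if `f` multiplies an ample or a nef
and big divisor by some `λ ≥ 2`, or if `∑ ν (D t) = n - 1` and `deg f ≠ ∏ λ_t ^ ν (D t)`, then `L` is
numerically trivial, and the sections of `m L`, `m ≥ 1`, have no zeros. If `κ (L) = ν (L)` and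
`r L - K_X` is nef, then `L` is semiample, by the theorem of Kawamata (1985), which is not formalised
here.

The proof. By the library theorem `Pool.Agent.T2H06.DYL.dynL` the largest value of `δ_p / λ_t ^ p` is
attained for `ν (D t) + 1` consecutive `p`, and the largest value of `δ_p` for `ν (L) + 1` consecutive
`p`. These intervals, for different `λ`, have at most one point in common, and follow each other in the
order of decreasing `λ` (`Pool.Agent.U725.ED.Tiles`, no log-concavity is needed).

The variety is given by the homogeneous coordinates `y` of its generic point (`NormalModel`), the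
rational map by the endomorphism `φ = f^*` of the function field `K`, the divisors by their
multiplicities along the prime divisors `P` of `X` (`IsDivisor`). `Canonical` says that `X` has
canonical singularities, `IsCanonicalDivisor y n C` that `C` is the divisor of a rational `n`-form,
`Cartier` that a divisor has local equations, `Nef` that `q L + H` is semiample for all `q ≥ 1`,
`PullLe y D φ λ` that the class of `λ D - f^* D` is pseudo-effective on `X`, `PullGe y n D φ λ` that the
class of `f^* D - λ D` is pseudo-effective on the models of `K`. `DynDegree y n φ p δ` says that `δ` is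
the `p`-th dynamical degree, `NumLt y n L j` that `ν (L) < j`: for large `m` and small `b / m` the maps
given by the sections of `m L + b A` and by `n - j` pencils of hyperplane sections have degree at most
`ε m ^ j`; for nef `L` this means that `L ^ j · H ^ (n - j) = 0`. `IitakaGe`, `IitakaEq` and `NumEq`
say `κ (L) ≥ k`, `κ (L) = k` and `ν (L) = k`.
-/

set_option autoImplicit false

open Filter Topology FF Pool.Agent.W602.GT Pool.Agent.Y172 Pool.Agent.R887 Pool.Agent.T2H06.DYR
  Pool.Agent.T2H06.DYL Pool.Agent.T2H06.ASM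
open Pool.Agent.T2H08.CM (IsCanonicalDivisor can_divisor add_divisor)

namespace Pool.Agent.Results.MP_1149f4_ag.EigenDivisors

variable {K : Type} [Field K] [Algebra ℂ K] {N : ℕ}

/-- `D` is a nef Cartier divisor on `X` with `f^* D ≡ lam D`: the classes of `lam D - f^* D` on `X` and
of `f^* D - lam D` on the models of `K` are pseudo-effective. -/
def EigenDivisor (y : Fin (N + 1) → K) (n : ℕ) (φ : K →ₐ[ℂ] K) (lam : ℕ) (D : Place ℂ K → ℚ) :
    Prop :=
  IsDivisor y D ∧ Cartier y n D ∧ Nef y n D ∧ PullLe y D φ lam ∧ PullGe y n D φ lam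

/-- The numerical dimension of `D` is at least `k`. -/
def NumGe (y : Fin (N + 1) → K) (n : ℕ) (D : Place ℂ K → ℚ) (k : ℕ) : Prop :=
  k ≤ n ∧ ¬ NumLt y n D k

/-- dynamical degrees are unique -/
theorem dyn_unique {y : Fin (N + 1) → K} {n : ℕ} {φ : K →ₐ[ℂ] K} (p : ℕ) (a b : ℝ)
    (ha : DynDegree y n φ p a) (hb : DynDegree y n φ p b) : a = b := by
  obtain ⟨d, hd, hda⟩ := ha
  obtain ⟨d', hd', hdb⟩ := hb
  have h1 : d = d' := funext fun m => (hd m).unique (hd' m)
  subst h1
  exact tendsto_nhds_unique hda hdb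

/-- Let `X` be a normal projective variety of dimension `n > 0` with canonical singularities, `C` a
canonical divisor, `M` and `L` Cartier divisors, `L` nef, such that `r L = a C + b M`, where `r ≥ 1`
and `a, b ≥ 0`, and let `f` be a dominant rational self-map of `X` such that the class of `M - f^* M`
on `X` is pseudo-effective. Let `D t`, `t < s`, be nef Cartier divisors with `f^* D_t ≡ λ_t D_t`, where
the `λ_t ≥ 2` are different integers, and let `ν (D t) ≥ k t` for all `t`.

(1) If `ν (L) ≥ j`, then `j + ∑ k t ≤ n`; if `j + ∑ k t = n`, then the `p`-th dynamical degree of `f` is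
`∏ λ_t ^ min (k t, p - ∑_{λ_u > λ_t} k u)` (with `p - c = 0` for `p < c`) for all `p ≤ n`, the
topological degree of `f` is `∏ λ_t ^ (k t)`, and `ν (D t) = k t` for all `t` with `k t < n`, `ν (L) = j`
if `j < n`.
(2) If `κ (L) ≥ i`, where `i < n`, and `i + ∑ k t ≥ n`, or `i + ∑ k t ≥ n - 1` and
`deg f ≠ ∏ λ_t ^ (k t)`, then `κ (L) = ν (L) = i`.
(3) If `∑ k t = n`, or `∑ k t = n - 1` and `deg f ≠ ∏ λ_t ^ (k t)`, then `L` is numerically trivial, and
the sections `g ≠ 0` of `m L`, `m ≥ 1`, have no zeros: `div g + m L = 0`. -/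
theorem result {n : ℕ} {y : Fin (N + 1) → K}
    (hy : NormalModel y) (hn : Algebra.trdeg ℂ K = n) (hn0 : 0 < n) (hcan : Canonical y n)
    {C M L : Place ℂ K → ℚ} (hC : IsCanonicalDivisor y n C) (hM : IsDivisor y M)
    (hMcar : Cartier y n M) (hcar : Cartier y n L) (hnef : Nef y n L) {r a b : ℕ} (hr : 1 ≤ r)
    (hL : r • L = a • C + b • M) (φ : K →ₐ[ℂ] K) (hle : PullLe y M φ 1)
    {s : ℕ} (lam : Fin s → ℕ) (hlam : ∀ t, 2 ≤ lam t) (hinj : Function.Injective lam)
    (D : Fin s → Place ℂ K → ℚ) (hD : ∀ t, EigenDivisor y n φ (lam t) (D t))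
    (k : Fin s → ℕ) (hk : ∀ t, NumGe y n (D t) (k t)) :
    (∀ j, NumGe y n L j → j + ∑ t, k t ≤ n ∧ (j + ∑ t, k t = n →
      (∀ p ≤ n, DynDegree y n φ p
        (∏ t, (lam t : ℝ) ^ min (k t) (p - ∑ u with lam t < lam u, k u))) ∧
      mapDegree φ = ∏ t, lam t ^ k t ∧
      (∀ t, k t < n → NumEq y n (D t) (k t)) ∧ (j < n → NumEq y n L j))) ∧
    (∀ i < n, IitakaGe y L i →
      (n ≤ i + ∑ t, k t ∨ (n ≤ i + ∑ t, k t + 1 ∧ mapDegree φ ≠ ∏ t, lam t ^ k t)) →
      IitakaEq y L i ∧ NumEq y n L i) ∧
    ((n ≤ ∑ t, k t ∨ (n ≤ ∑ t, k t + 1 ∧ mapDegree φ ≠ ∏ t, lam t ^ k t)) →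
      NumLt y n L 1 ∧ ∀ m : ℕ, 1 ≤ m → ∀ g : K, IsSec y (m • L) g → g ≠ 0 →
        ∀ P, IsPrimeDivisor y P → (P.ord g : ℚ) = -(m * L P)) := by
  have hLD : IsDivisor y L := divisor_of_mul hr (by
    rw [hL]
    exact add_divisor (can_divisor hy hn hC) hM a b)
  have hpull : PullLe y L φ 1 := pull_of_mul hr (by
    rw [hL]
    exact adj_pullR hy hn hcan hC hMcar a b φ hle)
  have key : ∀ (j : ℕ) (k : Fin s → ℕ), NumGe y n L j → (∀ t, NumGe y n (D t) (k t)) →
      j + ∑ t, k t ≤ n ∧ (j + ∑ t, k t = n →
        (∀ p ≤ n, DynDegree y n φ p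
          (∏ t, (lam t : ℝ) ^ min (k t) (p - ∑ u with lam t < lam u, k u))) ∧
        mapDegree φ = ∏ t, lam t ^ k t) := by
    intro j k hj hk
    refine Pool.Agent.U725.ED.main_opt (P := DynDegree y n φ) dyn_unique hlam hinj ?_ ?_
    · obtain ⟨δ, h1, h2, h3, h4⟩ := dynL hy hn hLD hcar hnef φ le_rfl hpull (Or.inl rfl)
      exact ⟨δ, h1, h2, h3, h4 j hj.1 hj.2⟩
    · intro t
      obtain ⟨δ, h1, h2, h3, h4⟩ := dynL hy hn (hD t).1 (hD t).2.1 (hD t).2.2.1 φ
        (le_trans one_le_two (hlam t)) (hD t).2.2.2.1 (Or.inr (hD t).2.2.2.2)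
      exact ⟨δ, h1, h2, h3, h4 (k t) (hk t).1 (hk t).2⟩
  -- one more unit of `ν (L)` is impossible
  have hnum : ∀ i, (n ≤ i + ∑ t, k t ∨
      (n ≤ i + ∑ t, k t + 1 ∧ mapDegree φ ≠ ∏ t, lam t ^ k t)) → i < n → NumLt y n L (i + 1) := by
    intro i hi hin
    by_contra h
    obtain ⟨h1, h2⟩ := key (i + 1) k ⟨hin, h⟩ hk
    rcases hi with h3 | ⟨h3, h4⟩
    · omega
    · exact h4 (h2 (by omega)).2
  refine ⟨fun j hj => ⟨(key j k hj hk).1, fun hs => ?_⟩, fun i hin hkod hi => ?_, fun hi => ?_⟩
  · obtain ⟨h1, h2⟩ := (key j k hj hk).2 hs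
    refine ⟨h1, h2, fun t ht => ⟨?_, (hk t).2⟩, fun hjn => ⟨?_, hj.2⟩⟩
    · by_contra h
      have h3 := (key j (Function.update k t (k t + 1)) hj (by
        intro u
        by_cases hu : u = t
        · subst hu
          rw [Function.update_self]
          exact ⟨ht, h⟩
        · rw [Function.update_of_ne hu]
          exact hk u)).1
      rw [Finset.sum_update_of_mem (Finset.mem_univ t)] at h3
      have h4 := Finset.sum_sdiff (f := k) (Finset.subset_univ {t})
      rw [Finset.sum_singleton] at h4
      omega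
    · by_contra h
      have h3 := (key (j + 1) k ⟨hjn, h⟩ hk).1
      omega
  · have h3 := hnum i hi hin
    exact ⟨⟨hkod, iitaka_lt hy hn hin h3⟩, h3, fun h4 => iitaka_lt hy hn hin.le h4 hkod⟩
  · have h5 : NumLt y n L 1 := hnum 0 (by
      rw [zero_add]
      exact hi) hn0
    exact ⟨h5, fun m hm g hg hg0 => nef_trivial hy hn hn0 h5 hnef hm hg hg0⟩

end Pool.Agent.Results.MP_1149f4_ag.EigenDivisors
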