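import Pool.Agent.T2H06.ASM.Adj
import Pool.Agent.U492.ER.Main

/-!
# Adjoint divisors and the entropy rank of commutative groups of birational maps

Let `X` be a normal projective variety of dimension `n ≥ 2` with canonical singularities, for instance
a projective manifold, and let `L` be a nef Cartier divisor on `X` with `s L = a K_X + b M`, where
`s ≥ 1`, `a, b ≥ 0` and `M` is a Cartier divisor (in the generalised abundance conjecture `a = b = 1`
and `M = s L - K_X` is nef). Let `Γ` be any commutative group, not necessarily finitely generated,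
which acts on `X` by birational maps `ρ t` such that `ρ(t)^* M ≤ M`, that is, the class of
`M - ρ(t)^* M` on `X` is pseudo-effective (for instance `ρ(t)^* M ≡ M`). The maps need not be
automorphisms in any model, and no assumption is made on the pull back of `L`. Let `e` be the
entropy rank of `Γ` (`HasEntropyRank`): there is a homomorphism `l` from `Γ` to `ℝ^e`, whose image
contains a basis, such that the logarithms of the dynamical degrees `δ_p (ρ t)`, `0 < p < n`, are
bounded from above and from below by constant multiples of `∑ |l t i|`. We prove that it exists and is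
unique, and:

* `e ≤ n - 1` and `e ≤ n - ν (L) - 1` (for `ν (L) = n` this means `e = 0`);
* if `e > 0` and `κ (L) ≥ n - e - 1`, then `κ (L) = ν (L) = n - e - 1`; more generally
  `κ (L) = ν (L) = k` if `κ (L) ≥ k ≥ n - e - 1`, `k < n`;
* if `e = n - 1`, then `L` is numerically trivial and the sections of `m L`, `m ≥ 1`, have no zeros.

If `κ (L) = ν (L)` and `s L - K_X` is nef, then `L` is semiample, by the theorem of Kawamata (1985),
which is not formalised here.

What is used from the starting library: `Pool.Agent.T2H08.CM`, which proves, for `Γ = ℤ^r` with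
`r ≥ n - ν (L)` and a divisor `L` such that `L - ρ(t)^* L` is pseudo-effective, that for each `ε > 0`
some `ρ t`, `t ≠ 0`, has all dynamical degrees less than `1 + ε` (without a hand-in), and
`Pool.Agent.T2H06.ASM` (the pull back of adjoint divisors). The entropy rank, its existence and
uniqueness, the characters, the groups which are not free of finite rank or have elements of zero or
small entropy are new (files `Pool.Agent.U492.ER`, used also for `MP_c2a5fc_ag.EntropyRank`, which is
about `K_X`, nef or not). The starting result `MP_1149f4_ag.AdjointSelfMaps` is about one self-map.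

The variety is given by the homogeneous coordinates `y` of its generic point (`NormalModel`), a
birational map `f` by the automorphism `f^*` of the function field `K`, the divisors by their
multiplicities along the prime divisors `P` of `X` (`IsDivisor`). `Canonical` says that `X` has
canonical singularities, `IsCanonicalDivisor y n C` that `C` is the divisor of a rational `n`-form,
`Cartier` that a divisor has local equations, `Nef` that `q L + H` is semiample for all `q ≥ 1`,
`PullLe y M φ 1` that the class of `M - f^* M` is pseudo-effective on `X`. `DynDegree y n g p δ` says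
that `δ` is the `p`-th dynamical degree, `NumLt y n L j` that `ν (L) < j`: for large `m` and small
`b / m` the maps given by the sections of `m L + b A` and by `n - j` pencils of hyperplane sections
have degree at most `ε m ^ j`; for nef `L` this means that `L ^ j · H ^ (n - j) = 0`. `IitakaGe`,
`IitakaEq` and `NumEq` say `κ (L) ≥ k`, `κ (L) = k` and `ν (L) = k`.
-/

set_option autoImplicit false

open FF Pool.Agent.W602.GT Pool.Agent.Y172 Pool.Agent.R887 Pool.Agent.T2H06.DYL
  Pool.Agent.T2H06.ASM Pool.Agent.U492.ER
open Pool.Agent.T2H06.DYN (DynDegree)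
open Pool.Agent.T2H08.CM (IsCanonicalDivisor can_divisor add_divisor commutingL)

namespace Pool.Agent.Results.MP_1149f4_ag.EntropyRankAdjoint

/-- Let `X` be a normal projective variety of dimension `n ≥ 2` with canonical singularities, `C` a
canonical divisor, `M` and `L` Cartier divisors, `L` nef, such that `s L = a C + b M`, where `s ≥ 1`
and `a, b ≥ 0`, and let the commutative group `Γ` act on `X` by birational maps `ρ t` such that the
classes of `M - ρ(t)^* M` on `X` are pseudo-effective. There is exactly one `e` which is the entropy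
rank of `Γ`, and
* `e ≤ n - 1`, and `e ≤ n - j - 1` (or `e = 0`) if `ν (L) ≥ j`;
* if `e > 0`, `n ≤ e + k + 1`, `k < n` and `κ (L) ≥ k`, then `κ (L) = ν (L) = k`;
* if `n ≤ e + 1`, then `L` is numerically trivial, and the sections `g ≠ 0` of `m L`, `m ≥ 1`, have
  no zeros: `div g + m L = 0`;
* `r ≤ e` if there are `f 1, ..., f r` in `Γ` and `ε > 0` such that for all integral `c ≠ 0` the map
  `ρ (∑ c i • f i)` has a dynamical degree `≥ 1 + ε`. -/
theorem result {K : Type} [Field K] [Algebra ℂ K] {N n : ℕ} {y : Fin (N + 1) → K}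
    (hy : NormalModel y) (hn : Algebra.trdeg ℂ K = n) (hn2 : 2 ≤ n) (hcan : Canonical y n)
    {C M L : Place ℂ K → ℚ} (hC : IsCanonicalDivisor y n C) (hM : IsDivisor y M)
    (hMcar : Cartier y n M) (hcar : Cartier y n L) (hnef : Nef y n L) {s a b : ℕ} (hs : 1 ≤ s)
    (hL : s • L = a • C + b • M) {Γ : Type} [AddCommGroup Γ] (ρ : Γ → (K ≃ₐ[ℂ] K))
    (hρ : ∀ t u, ρ (t + u) = ρ t * ρ u) (hle : ∀ t, PullLe y M (ρ t : K →ₐ[ℂ] K) 1) :
    ∃ e : ℕ, HasEntropyRank y n ρ e ∧ (∀ e', HasEntropyRank y n ρ e' → e' = e) ∧
      e ≤ n - 1 ∧ (∀ j ≤ n, ¬ NumLt y n L j → e ≤ n - j - 1) ∧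
      (0 < e → ∀ k < n, n ≤ e + k + 1 → IitakaGe y L k → IitakaEq y L k ∧ NumEq y n L k) ∧
      (n ≤ e + 1 → NumLt y n L 1 ∧ ∀ m : ℕ, 1 ≤ m → ∀ g : K, IsSec y (m • L) g → g ≠ 0 →
        ∀ P, IsPrimeDivisor y P → (P.ord g : ℚ) = -(m * L P)) ∧
      ∀ (r : ℕ) (f : Fin r → Γ) (ε : ℝ), 0 < ε →
        (∀ c : Fin r → ℤ, c ≠ 0 → ∃ p ≤ n, ∃ δ : ℝ, 1 + ε ≤ δ ∧
          DynDegree y n (ρ (∑ i, c i • f i)) p δ) → r ≤ e := by
  have hD : IsDivisor y L := divisor_of_mul hs (by
    rw [hL]
    exact add_divisor (can_divisor hy hn hC) hM a b)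
  have hpull : ∀ t, PullLe y L (ρ t : K →ₐ[ℂ] K) 1 := fun t => pull_of_mul hs (by
    rw [hL]
    exact adj_pullR hy hn hcan hC hMcar a b _ (hle t))
  obtain ⟨c, hc⟩ := growth hρ hy hn hn2 hcan
  obtain ⟨e, he⟩ := exists_rank hρ hy hn hn2 hcan
  obtain ⟨h1, -⟩ := he.le_of_numDim hρ hy hn hn2 hcan hc
  have h2 : ∀ j ≤ n, ¬ NumLt y n L j → e ≤ n - j - 1 := by
    intro j hj hnd
    obtain ⟨g, ε, hε, hg⟩ := he.exists_free hc hn2
    by_contra hlt
    obtain ⟨t, ht0, ht⟩ := commutingL (r := e) (by omega) (ρ := fun t => ρ (∑ i, t i • g i))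
      (fun t u => by
        rw [← hρ, ← Finset.sum_add_distrib]
        congr 1
        exact Finset.sum_congr rfl fun i _ => by rw [Pi.add_apply, add_smul])
      hy hn (by omega) hD hcar (fun t => hpull _) hj (by omega) hnd (ε := Real.exp ε - 1) (by
        have := Real.add_one_lt_exp hε.ne'
        linarith)
    obtain ⟨δ, h1, hδ⟩ := hc.exists_deg (∑ i, t i • g i) 1 (by omega)
    have h2 := ht 1 (by omega) δ hδ
    have h3 := hg t ht0
    rw [← hc.one _ δ hδ] at h3
    have h4 := Real.exp_le_exp.2 h3
    rw [Real.exp_log (by linarith)] at h4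
    linarith
  refine ⟨e, he, fun e' he' => ?_, h1, h2, fun he0 k hk hks hkod => ?_, fun hne => ?_,
    fun r f ε hε hf => he.le hc f hε hf⟩
  · exact le_antisymm (he'.unique he hc hn2) (he.unique he' hc hn2)
  · have h3 : NumLt y n L (k + 1) := by
      by_contra h4
      have := h2 (k + 1) hk h4
      omega
    exact ⟨⟨hkod, iitaka_lt hy hn hk h3⟩, h3, fun h4 => iitaka_lt hy hn hk.le h4 hkod⟩
  · have h5 : NumLt y n L 1 := by
      by_contra h4
      have := h2 1 (by omega) h4
      omega
    exact ⟨h5, fun m hm g hg hg0 => nef_trivial hy hn (by omega) h5 hnef hm hg hg0⟩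

end Pool.Agent.Results.MP_1149f4_ag.EntropyRankAdjoint
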