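import Pool.Agent.U189.FV.Top
import Pool.Agent.U189.MG.Frm

/-!
# Nef real classes are semiample on the modifications of arbitrary varieties with a finite morphism to
# a toric variety

**The varieties.** Let `Y` be any normal projective variety of dimension `n ≥ 1` over `ℂ` with the
function field `K`, and `x 0, ..., x n` sections of an ample line bundle `H` on `Y` without common zeros.
They define a finite morphism from `Y` to the projective `n`-space. `X` is the normalization in `K` of the
toric modification of the projective space which is given by `fan`: a modification of `Y` with a finite
morphism to a toric variety, and a toroidal modification of `Y` if the divisors `x k = 0` have normal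
crossings (see `Pool/Agent/U189/FV/Top.lean`, where the definitions `affine`, `minimalOrder`,
`multiplicities`, `InCone`, `IsFan` and `coefficient` are explained). `D 1, ..., D p` are the pullbacks to
`X` of toric `ℚ`-Cartier divisors; the coefficients of their pullbacks at the prime divisors `P` over `X` are
the `δ i P`.
`X` can be any such modification which is a projective (or only a complete) variety; no combination
of the `D i` is assumed to be ample, and the classes of the `D i` need not span `N¹(X)`: in general they
do not.

**Classes which are free along a set of prime divisors.** Let `PP` be any set of prime divisors over `X`
(divisorial valuations of `K`; they are exceptional over `X` or not). An integral combination is free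
along `PP` if it has a nonzero section and for every `P` in `PP` a section which does not vanish at `P`
(`IsFreeAlong`). A real combination `w` is a limit of such classes (`IsFreeAlongUpTo`) if there is a
divisor `A` on some model of `X`, generated by finitely many functions, such that for all `M ≥ 1`
multiples of `w + A / M` have, up to a change of the coefficients by at most `1 / M`, for every `P` in
`PP` a section which does not vanish at `P`. Here `A` need not be a combination of the `D i`. Special
cases (for a projective `X`; take `A` ample such that also the `A ± D i` are ample):
* `PP` all prime divisors over `X`: every nef class has the property (`w + A / M` is ample), and the free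
integral classes are those without base points;
* `PP` all prime divisors on `X`: every class in the closure of the cone of movable divisor classes in
`N¹(X)` has the property, and the free integral classes are those without fixed divisor;
* `PP` all prime divisors over `X` with a centre of codimension at most `q` on `X`: closures of the cones
of divisors whose base loci have codimension more than `q`;
* `PP` empty: the pseudo-effective classes.

**The theorem.** There are finitely many rational polyhedral cones, such that for EVERY set `PP` the
real combinations `w` which are limits of classes free along `PP` form one of these cones; and it is
spanned by finitely many integral combinations which are free along `PP`.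

**Generalized abundance.** Let `L` be a real combination of the `D i` which is nef on `X`. By the theorem
for all prime divisors over `X` it is a combination with coefficients `≥ 0` of integral divisors without
base points: it is semiample. So the conclusion of Question Q1 holds for all nef `L` in the span of the
`D i`, with no condition on `K_X` and on `m L - K_X`; for instance, if `K_Y` is `ℚ`-linearly equivalent to a
rational multiple of `H` and the divisors `x k = 0` have normal crossings, for all combinations `L` of `K_X`
and the `D i` (`L = K_X` if `K_X` is nef, and `L = a K_X + A` for all `a` and all combinations `A` if `L` is nef).
Here `Y` can be any Calabi-Yau variety, any abelian variety, any hyperkähler variety, any variety with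
ample `K_Y` (`H` is a multiple of `K_Y`), and any abelian cover of such a variety which is branched only
along the divisors `x k = 0`. These remarks are not used and not proved here.

**Relation to the other results.** `MP_9a2ae6_ag.NormalCrossingRealNef` is the same conclusion for the
abelian covers `Y` of the projective `n`-space which are branched along `n + 1` hypersurfaces with normal
crossings (there the `x k` are powers of the forms of the hypersurfaces). Here `Y` is arbitrary.

**Proof.** New is the finite generation of the Cox ring of the `D i` (`Pool/Agent/U189/FV`): the sections
are integral over the sections on the toric variety, and they are contained in a finitely generated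
module over the algebra of the monomials in a cone; every `Y` with a finite morphism to the
projective space is allowed. Finite sets of functions are bounded by a multiple of `H`
(`Pool/Agent/U189/MG/Abs.lean`). The generators which vanish at `P` can occur in the limit only with the
coefficient zero (`Pool/Agent/U189/MG/Fre.lean`, `Frm.lean`).
-/

set_option autoImplicit false

open FF MvPolynomial Pool.Agent.W602.GT

namespace Pool.Agent.Results.MP_1149f4_ag.FiniteCoverNef

open Pool.Agent.U660.MD (coneOf)
open Pool.Agent.U189.MG.G (IsFreeAlong IsFreeAlongUpTo free_cones)
open Pool.Agent.U189.ND (affine minimalOrder InCone)
open Pool.Agent.U189.FV

/-- **Cones of classes which are free along sets of prime divisors.** Let `K` be the function field of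
a normal projective variety `Y` of dimension `n`, `x 0, ..., x n` sections of an ample line bundle without
common zeros, `X` the normalization in `K` of the toric modification of the projective `n`-space which is
given by `fan`, and `D i`, `i < p`, the pullbacks of toric `ℚ`-Cartier divisors with the degrees `β i` and the
coefficients `c i`. There are finitely
many finite families `h l` of integral combinations such that for every set `PP` of prime divisors over
`X` there is `l` such that the `h l b` are free along `PP`, and span the cone of all real combinations
which are limits of classes free along `PP`. -/
theorem result (n p : ℕ) (hn : 1 ≤ n) (K : Type) [Field K] [Algebra ℂ K] (x : Fin (n + 1) → K)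
    (hx0 : x 0 ≠ 0) (hbas : IsTranscendenceBasis ℂ (affine x))
    (hfin : FiniteDimensional (IntermediateField.adjoin ℂ (Set.range (affine x))) K)
    (fan : Finset (Finset (Fin (n + 1) → ℕ))) (hfan : IsFan fan)
    (c : Fin p → (Fin (n + 1) → ℕ) → ℚ) (β : Fin p → ℤ)
    (u : Finset (Fin (n + 1) → ℕ) → Fin p → Fin (n + 1) → ℚ)
    (hlin : ∀ σ ∈ fan, ∀ i v, (∃ k, v k = 0) → InCone σ v → c i v = ∑ k, u σ i k * v k)
    (δ : Fin p → Place ℂ K → ℚ) (hδ : ∀ i P, δ i P = coefficient x (c i) (β i) P) :
    ∃ (L : ℕ) (B : Fin L → ℕ) (h : ∀ l, Fin (B l) → Fin p → ℤ), ∀ PP : Set (Place ℂ K), ∃ l,
      (∀ b, IsFreeAlong n δ PP (h l b)) ∧ {w | IsFreeAlongUpTo n δ PP w} = coneOf (h l) :=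
  free_cones (ω := minimalOrder x) (fun S => Pool.Agent.U189.MG.absorb hx0 hbas S)
    (cox_fv_ext n p hn K x hx0 hbas hfin fan hfan c β u hlin δ hδ)

end Pool.Agent.Results.MP_1149f4_ag.FiniteCoverNef
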