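import Pool.Agent.U976.TBd.GU2

/-!
# Effective generalised abundance for Kummer covers of toric bundles over quotients of complex tori

Let `X = V / Γ` be the quotient of a complex torus of any dimension by any finite group; the torus need
not be algebraic, and the group may contain reflections, so that `K_X` may be negative. Let `Y → X` be a
toric bundle: all fibres are the same smooth complete toric variety, of any dimension, and the twists
`c i` are arbitrary line bundles on `X`. Let `F_j` be a section of the `m_j`-th power of the line bundle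
`O_Y(e_j; A_j)` on `Y`, and let `Y'` be the Kummer cover of `Y` with the equations `y_j ^ m_j = F_j`. We
assume that `Y'` is smooth, or only that its general fibre over `X` is smooth (then `K_{Y'}` is the
dualizing sheaf). The fibres of `Y' → X` vary and may degenerate, and can be of any Kodaira type.

The theorem: assume that `K_{Y'}` is pseudo-effective. There is one number `N ≥ 1`, which depends only on
`Y'` (and on `p ≥ 1`), such that the following holds for the pullback `M` to `Y'` of any line bundle
`O_Y(D; L)` on `Y` for which `t M - p K_{Y'}` is nef for some `t ≥ 0`: `M` is nef if and only if for some flat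
line bundle `R` on `X` the line bundle `M ^ N ⊗ R` is generated by its global sections. If
`H^1(X, O_X) = 0` then `M` is nef if and only if it is semiample.

The proof. `K_{Y'}` is the pullback of the log canonical class of the pair
`(Y, ∑ (1 - 1 / m_j) div F_j)`; by normal crossings on the general fibre and Hall's theorem the log
discrepancies of this pair at the torus invariant divisors over the general fibre of `Y → X` are
bounded below by a positive multiple of those of `Y`. For each cone `σ` the restriction `M_σ` of `M` to
the invariant section of `σ` is nef on `X`; let `U_σ` be the space of the vectors of `V` in the kernel of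
its Chern form which are invariant under the linear parts of `Γ`. A separation argument in the character
lattice writes a multiple of `M_σ` as a sum of the nef restrictions of `t M - p K_{Y'}` and of the line
bundles of the log pluricanonical divisors on `X` given by the coefficients of `∏ F_j ^ {w_j}`, and each
of the latter occurs. So the Chern forms of the latter vanish on `U_σ`, and by Liouville's theorem their
characters are trivial on the lattice vectors in `U_σ`, which span `U_σ`. As the pair is klt and
`K_{Y'}` is effective on the fibres, the differences of the exponents of the coefficients span, so the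
Chern forms of all line bundles `∏ c_i ^ {⟨q, u_i⟩}` vanish on `U_σ` and their characters are torsion
there. So `U_σ` and the character of `M_σ` on it (up to torsion) do not depend on `σ`, and one flat
line bundle `R` makes all characters torsion. The orders of the torsion characters are bounded
independently of `M`, and the rest is the effective theorem for nef line bundles on torus quotients
(`Q47.EB`).

`IsTorusQuotient` and `LineBundle` are defined in `Pool.Agent.W594.SYZ.Defs2`; `IsChernForm` and
`IsNefForm` in `Pool.Agent.W594.SYZ.TQDefs`; `IsRamification` in `Pool.Agent.TH735.AQ.MirDefs`;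
`IsFlat` and `HOneZero` in `Pool.Agent.TH735.AQ.Defs`; `IsSmoothFan`, `LinEquiv` and
`IsSection` in `Pool.Agent.Q47.TB.Defs`; `Nef` in `Pool.Agent.U976.TBd.Defs`; `GenNormalCrossing` in
`Pool.Agent.U976.TBd.NC2`; `IsCoverCanonical`, `canClass`, `IsCoverSection` and `CoverSemiample` in
`Pool.Agent.U976.TBd.K1`; `CoverPsef` in `Pool.Agent.U976.TBd.K3`; `CoverFreeUpToFlat` in
`Pool.Agent.U976.TBd.GU2`.
-/

set_option autoImplicit false

namespace Pool.Agent.Results.MP_1149f4_ag.KummerCoversUniform

open Pool.Agent.W594.SYZ2 Pool.Agent.TH735.AQ Q47.TB Pool.Agent.U976.TBd MvPolynomial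

/-- A line bundle on `Y` whose pullback to the cover has such a multiple is nef. -/
theorem nef_of_free {V : Type*} [NormedAddCommGroup V] [NormedSpace ℂ V] [FiniteDimensional ℂ V]
    {Γ : Subgroup (V ≃ᵃ[ℂ] V)} (hΓ : IsTorusQuotient Γ)
    {ι : Type*} [Fintype ι] {n : ℕ} {u : ι → Fin n → ℤ} {S : Set (Set ι)}
    {c : ι → LineBundle Γ} {Hc : ι → V → V → ℂ} (hc : ∀ i, IsChernForm (c i) (Hc i))
    {k : ℕ} {m : Fin k → ℕ} (hm : ∀ j, 1 ≤ m j) {e : Fin k → ι → ℤ} {A : Fin k → LineBundle Γ}
    {F : Fin k → V → MvPolynomial ι ℂ}
    (hF : ∀ j, IsSection u c (fun i => m j * e j i) (fun γ v => (A j).e γ v ^ m j) (F j))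
    {D : ι → ℤ} {L : LineBundle Γ} {H : V → V → ℂ} (hL : IsChernForm L H) {N : ℕ} (hN : 1 ≤ N)
    (h : CoverFreeUpToFlat u S c e A m F N D L) : Nef u S Hc D H := by
  obtain ⟨R, hR, h⟩ := h
  have hsa : CoverSemiample u S c e A m F (fun i => N * D i) (tensor (L.pow N) R) := by
    refine ⟨1, le_rfl, fun v x y hx hy => ?_⟩
    obtain ⟨G, hG, h0⟩ := h v x y hx hy
    refine ⟨G, ?_, h0⟩
    have e1 : (fun i => ((1 : ℕ) : ℤ) * ((N : ℤ) * D i)) = fun i => (N : ℤ) * D i := by
      funext i
      push_cast
      ring
    have e2 : (fun (γ : Γ) (v : V) => (tensor (L.pow N) R).e γ v ^ 1)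
        = fun γ v => L.e γ v ^ N * R.e γ v := by
      funext γ v
      rw [pow_one]
      rfl
    rw [e1, e2]
    exact hG
  exact nef_of_numsemi hΓ hc hL hN hR ((cover_semiample_iff hF hm _ _).1 hsa)

/-- Let `Y` be the toric bundle with the fan `u`, `S` and the twists `c i` over the torus quotient
`X = V / Γ`, let `F j` be a section of the `m j`-th power of `O_Y(e j; A j)`, such that the divisors
`F j = 0` on the general fibres are smooth and have normal crossings, and let `Y'` be the Kummer cover
`y_j ^ m_j = F_j` of `Y`. Let `p K_{Y'}`, `p ≥ 1`, be the pullback of the line bundle `O_Y(d; L₀)`,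
`d = canClass e m p`, where `H₀` is the Chern form of `L₀`, and assume that it is pseudo-effective. Then
there is `N ≥ 1` such that the following holds for each line bundle `O_Y(D; L)`, where `H` is the Chern form
of `L`, with the pullback `M` to `Y'`, such that `t M - p K_{Y'}` is nef (on the fibres and on the invariant
sections of `Y → X`) for some `t ≥ 0`.

(1) `M` is nef if and only if `M ^ N ⊗ R` is generated by its global sections for some flat line bundle
`R` on `X`.
(2) If `H^1(X, O_X) = 0` then `M` is nef if and only if it is semiample. -/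
theorem result {V : Type*} [NormedAddCommGroup V] [NormedSpace ℂ V] [FiniteDimensional ℂ V]
    (Γ : Subgroup (V ≃ᵃ[ℂ] V)) (hΓ : IsTorusQuotient Γ) (ρ : V → ℂ) (hρ : IsRamification Γ ρ)
    {ι : Type*} [Fintype ι] {n : ℕ} (u : ι → Fin n → ℤ) (S : Set (Set ι)) (hS : IsSmoothFan u S)
    (c : ι → LineBundle Γ) (Hc : ι → V → V → ℂ) (hc : ∀ i, IsChernForm (c i) (Hc i))
    {k : ℕ} (m : Fin k → ℕ) (hm : ∀ j, 1 ≤ m j) (e : Fin k → ι → ℤ) (A : Fin k → LineBundle Γ)
    (F : Fin k → V → MvPolynomial ι ℂ)
    (hF : ∀ j, IsSection u c (fun i => m j * e j i) (fun γ v => (A j).e γ v ^ m j) (F j))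
    (hnc : GenNormalCrossing S F)
    (p : ℕ) (hp : 1 ≤ p) (L₀ : LineBundle Γ) (hL₀ : IsCoverCanonical c A m p ρ L₀)
    (H₀ : V → V → ℂ) (hH₀ : IsChernForm L₀ H₀)
    (hpsef : CoverPsef u S c e A m F (canClass e m p) L₀) :
    ∃ N : ℕ, 1 ≤ N ∧ ∀ (D : ι → ℤ) (L : LineBundle Γ) (H : V → V → ℂ), IsChernForm L H →
      ∀ t : ℕ, Nef u S Hc (fun i => t * D i - canClass e m p i) (fun v w => t * H v w - H₀ v w) →
        (Nef u S Hc D H ↔ CoverFreeUpToFlat u S c e A m F N D L) ∧
        (HOneZero Γ → (Nef u S Hc D H ↔ CoverSemiample u S c e A m F D L)) := by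
  obtain ⟨N, hN, hmain⟩ := gen_kummer_unif hΓ hρ hS hc hm hF hnc hp hL₀ hH₀ hpsef
  refine ⟨N, hN, fun D L H hL t hadj => ⟨⟨fun h => ?_, fun h => ?_⟩, fun h01 => ⟨fun h => ?_,
    fun h => ?_⟩⟩⟩
  · obtain ⟨R, hR, hs⟩ := hmain hL h hadj
    refine ⟨R, hR, fun v x y hx _ => ?_⟩
    obtain ⟨G', hG', h0⟩ := hs v x hx
    refine ⟨_, cover_of_section hm hG', ?_⟩
    rw [eval_rename]
    exact h0
  · exact nef_of_free hΓ hc hm hF hL hN h
  · obtain ⟨N, R, hN, hR, h1⟩ := gen_kummer hΓ hρ hS hc hm hF hnc hp hL₀ hH₀ hpsef hL h hadj
    exact (cover_semiample_iff hF hm _ _).2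
      (semiample_of_numsemi hΓ h01 hN hR ((cover_semiample_iff hF hm _ _).1 h1))
  · exact nef_of_semiample hΓ hc hL ((cover_semiample_iff hF hm _ _).1 h)

end Pool.Agent.Results.MP_1149f4_ag.KummerCoversUniform
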